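import Pool.Agent.helper52.ED.SpecP

/-!
Project ed:, module TCH: the charts of the tubes.
-/

set_option autoImplicit false

open Complex Metric Set Filter Topology MeasureTheory
open Pool.Agent.helper98.ILF Pool.Agent.helper16.Multibrot HY
open DH (co Tow yv jj FA REL)

noncomputable section

namespace ED

/-- the iterate `f^m` maps `V_(l+m)` into `V_l`. -/
lemma TCH_maps (n : ℕ) (c : ℂ) (m l : ℕ) {z : ℂ} (hz : z ∈ VV n c (l + m)) : (fz n c)^[m] z ∈ VV n c l := by
  simp only [VV, Set.mem_ofPred_eq] at hz ⊢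
  rwa [← Function.iterate_add_apply]

lemma TCH_diff_fz (n : ℕ) (c : ℂ) (m : ℕ) : Differentiable ℂ ((fz n c)^[m]) := by
  have h : Differentiable ℂ (fz n c) := by
    unfold fz
    fun_prop
  exact h.iterate m

/-- the map `f^m : V_(l+m) → V_l` in coordinates. -/
lemma TCH_g (hCOP : DH.COP_stmt) (n : ℕ) (c : ℂ) (Φ : ℕ → ℂ → ℂ) (b : ℕ → ℂ) (hT : Tow n c Φ b) (l l' m : ℕ)
    (hl : l = l' + m) :
    DifferentiableOn ℂ (fun x => co (Φ l') ((fz n c)^[m] (Φ l x))) UD ∧
    MapsTo (fun x => co (Φ l') ((fz n c)^[m] (Φ l x))) UD UD ∧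
    ∀ x ∈ UD, Φ l' (co (Φ l') ((fz n c)^[m] (Φ l x))) = (fz n c)^[m] (Φ l x) := by
  obtain ⟨_, _, _, h4, h5, h6, _⟩ := hCOP (VV n c l') 0 (Φ l') (hT.rm l')
  obtain ⟨_, _, _, _, h5', _, _⟩ := hCOP (VV n c l) 0 (Φ l) (hT.rm l)
  have hmem : ∀ x ∈ UD, (fz n c)^[m] (Φ l x) ∈ VV n c l' := by
    intro x hx
    have := (h5' x hx).1
    rw [hl] at this
    rw [hl]
    exact TCH_maps n c m l' this
  refine ⟨?_, ?_, ?_⟩
  · exact h6.comp (((TCH_diff_fz n c m).differentiableOn (s := univ)).comp (hT.rm l).dif (fun _ _ => mem_univ _)) hmem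
  · intro x hx
    exact (h4 _ (hmem x hx)).1
  · intro x hx
    exact (h4 _ (hmem x hx)).2

theorem TCH (hCOP : DH.COP_stmt) (hBTP : DH.BTP_stmt) (hMOB : HY.MOB_stmt) (hSPK : SPK_stmt) : TCH_stmt := by
  intro n c Φ b hT k q p hp
  obtain ⟨hA, hB⟩ := hBTP n c Φ b hT
  refine ⟨?_, ?_, ?_⟩
  · -- (1)
    intro u hu
    obtain ⟨_, hy, hj, _⟩ := hB k 0 p hp
    set l := k + q - u with hl
    have hkl : k ≤ l := by omega
    obtain ⟨hUN, _, _⟩ := hA k l hkl
    set a := yv Φ n c l p u with ha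
    have haU : a ∈ UD := (hy l u).1
    obtain ⟨hm1, hm2, hm3, hm4, hm5, hm6, hm7, _, _, hm10, hm11, _⟩ := hMOB a haU
    have hSm : MapsTo (S a) UD UD := fun x hx => (hm1 x hx).2.1
    have h0 : (0 : ℂ) ∈ UD := by simp [UD]
    refine ⟨⟨?_, ?_, ?_⟩, ?_, ?_⟩
    · exact hUN.dif.comp hm5 hSm
    · exact hUN.inj.comp hm7 hSm
    · exact hUN.map.comp hSm
    · show jj Φ k l (S a 0) = _
      rw [hm3]
      exact (hj k l u hkl).1
    · have hUo : IsOpen UD := isOpen_ball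
      have hd1 : DifferentiableAt ℂ (jj Φ k l) (S a 0) := by
        rw [hm3]
        exact hUN.dif.differentiableAt (hUo.mem_nhds haU)
      have hd2 : DifferentiableAt ℂ (S a) 0 := hm5.differentiableAt (hUo.mem_nhds h0)
      have hder : deriv (chg Φ n c k q p u) 0 = deriv (jj Φ k l) a * (1 - (‖a‖ : ℂ) ^ 2) := by
        have : chg Φ n c k q p u = (jj Φ k l) ∘ (S a) := rfl
        rw [this, deriv_comp 0 hd1 hd2, hm3, hm11]
      have hval : chg Φ n c k q p u 0 = jj Φ k l a := by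
        show jj Φ k l (S a 0) = _
        rw [hm3]
      unfold hd
      rw [hder, hval, norm_mul]
      have hna : ‖(1 - (‖a‖ : ℂ) ^ 2)‖ = 1 - ‖a‖ ^ 2 := by
        have h1 : (1 - (‖a‖ : ℂ) ^ 2) = ((1 - ‖a‖ ^ 2 : ℝ) : ℂ) := by push_cast; ring
        rw [h1, Complex.norm_real, Real.norm_of_nonneg]
        have : ‖a‖ < 1 := by simpa [UD] using haU
        nlinarith [norm_nonneg a]
      rw [hna]
      ring
  · -- (2)
    intro u u' huu hu'
    obtain ⟨_, hy, hj, _⟩ := hB k 0 p hp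
    set l := k + q - u with hl
    set l' := k + q - u' with hl'
    have hkl : k ≤ l := by omega
    have hkl' : k ≤ l' := by omega
    have hll : l = l' + (u' - u) := by omega
    set a := yv Φ n c l p u with ha
    set a' := yv Φ n c l' p u' with ha'
    have haU : a ∈ UD := (hy l u).1
    have haU' : a' ∈ UD := (hy l' u').1
    obtain ⟨hm1, hm2, hm3, hm4, hm5, _⟩ := hMOB a haU
    obtain ⟨hm1', hm2', hm3', hm4', _⟩ := hMOB a' haU'
    have hSm : MapsTo (S a) UD UD := fun x hx => (hm1 x hx).2.1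
    have hTm' : MapsTo (T a') UD UD := fun x hx => (hm1' x hx).1
    obtain ⟨hg1, hg2, hg3⟩ := TCH_g hCOP n c Φ b hT l l' (u' - u) hll
    refine ⟨fun x => T a' ((fun x => co (Φ l') ((fz n c)^[u' - u] (Φ l x))) (S a x)), ?_, ?_, ?_, ?_⟩
    · exact hm4'.comp (hg1.comp hm5 hSm) (hg2.comp hSm)
    · exact hTm'.comp (hg2.comp hSm)
    · show T a' (co (Φ l') ((fz n c)^[u' - u] (Φ l (S a 0)))) = 0
      rw [hm3, (hy l u).2, ← Function.iterate_add_apply, show u' - u + u = u' by omega]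
      exact hm2'
    · intro x hx
      show (fz n c)^[u' - u] (Φ k (jj Φ k l (S a x))) =
        Φ k (jj Φ k l' (S a' (T a' (co (Φ l') ((fz n c)^[u' - u] (Φ l (S a x)))))))
      have hz := hg2 (hSm hx)
      rw [(hA k l hkl).2.2 _ (hSm hx), (hm1' _ hz).2.2.1, (hA k l' hkl').2.2 _ hz]
      exact (hg3 _ (hSm hx)).symm
  · -- (3)
    intro p' hp' i u hiu
    obtain ⟨_, hy, _, _⟩ := hB k 0 p hp
    obtain ⟨_, hy', _, _⟩ := hB k 0 p' hp'
    set l := k + q - i with hl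
    set l' := k + q - (i + u) with hl'
    have hll : l = l' + u := by omega
    obtain ⟨hg1, hg2, hg3⟩ := TCH_g hCOP n c Φ b hT l l' u hll
    have key := hSPK.1 _ hg1 hg2 (yv Φ n c l p i) (hy l i).1 (yv Φ n c l p' i) (hy' l i).1
    have e1 : co (Φ l') ((fz n c)^[u] (Φ l (yv Φ n c l p i))) = yv Φ n c l' p (i + u) := by
      rw [(hy l i).2, ← Function.iterate_add_apply, add_comm u i]
      rfl
    have e2 : co (Φ l') ((fz n c)^[u] (Φ l (yv Φ n c l p' i))) = yv Φ n c l' p' (i + u) := by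
      rw [(hy' l i).2, ← Function.iterate_add_apply, add_comm u i]
      rfl
    simp only [e1, e2] at key
    exact key

end ED
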